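import Pool.Agent.MBX.Stmts

set_option autoImplicit false

open MeasureTheory Complex ProbabilityTheory

namespace Pool.Agent.MBX.H56

open Pool.Agent.Helper49_Pauli
open Pool.Agent.Loc (γn PB)

theorem nf_pb {ι : Type} [Fintype ι] [DecidableEq ι] {F : (ι → ℝ) → X3 → ℝ} (hF : NF F) (x : X3) :
    PB (fun y => F y x) := by
  obtain ⟨hc, C, m, R, hC, hb⟩ := hF
  refine ⟨hc.comp (by fun_prop : Continuous fun y : ι → ℝ => (y, x)), C, m, hC, fun y => ?_⟩
  exact (hb y x).1

theorem ste (hsdy : SdyStmt) (hsnf : SnfStmt) (hnfc : NfcStmt) (hnfi : NfiStmt) : SteStmt := by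
  intro ι _ _ q hq i g g' hg hg' hd
  obtain ⟨hdq, hder⟩ := hsdy ι q hq i
  have n1 := (hsnf ι q hq).1
  have n2 := (hsnf ι _ hdq).1
  have hyg : PB (fun y : ι → ℝ => y i * g y) := (Pool.Agent.Loc.PB.coord i).mul hg
  have hsub : PB (fun y : ι → ℝ => g' y - y i * g y) := by
    have h := hg'.add ((Pool.Agent.Loc.PB.const (-1 : ℝ)).mul hyg)
    have e : (fun ξ : ι → ℝ => g' ξ + -1 * (ξ i * g ξ)) = fun y : ι → ℝ => g' y - y i * g y := by
      funext y; ring
    rw [e] at h
    exact h
  have hNF : NF (fun y x => g y * (dY i q y x).re + (g' y - y i * g y) * (q y x).re) :=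
    ((hnfc ι _ ((hnfc ι _ n2).2.1 g hg)).1 _ ((hnfc ι _ n1).2.1 _ hsub)).1
  have hint := hnfi ι _ hNF
  rw [II, integral_prod_symm _ hint]
  have hz : ∀ x : X3, ∫ y : ι → ℝ, (g y * (dY i q y x).re + (g' y - y i * g y) * (q y x).re)
      ∂(γn ι) = 0 := by
    intro x
    have p1 := nf_pb n1 x
    have p2 := nf_pb n2 x
    have hF : PB (fun y : ι → ℝ => g y * (q y x).re) := hg.mul p1
    have hF' : PB (fun y : ι → ℝ => g' y * (q y x).re + g y * (dY i q y x).re) :=
      (hg'.mul p1).add (hg.mul p2)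
    have hs := Pool.Agent.Loc.stein hF hF' i (by
      intro y
      have h1 := hd y
      have h2 : HasDerivAt (fun t : ℝ => (q (Function.update y i t) x).re) (dY i q y x).re (y i) := by
        have h3 := (hder y x)
        exact (Complex.reCLM.hasFDerivAt.comp_hasDerivAt (y i) h3)
      have h4 := h1.mul h2
      rw [Function.update_eq_self] at h4
      exact h4)
    have e : (fun y : ι → ℝ => g y * (dY i q y x).re + (g' y - y i * g y) * (q y x).re) =
        fun y : ι → ℝ => (g' y * (q y x).re + g y * (dY i q y x).re) - y i * (g y * (q y x).re) := by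
      funext y; ring
    rw [e, integral_sub hF'.integrable ((Pool.Agent.Loc.PB.coord i).mul hF).integrable, ← hs,
      sub_self]
  simp only [hz, integral_zero]

end Pool.Agent.MBX.H56
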